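import Pool.Agent.K1H72.CD.Stm

/-! Piece CD-COV: a finite cluster has a dual path around. -/

set_option autoImplicit false

namespace Pool.Agent.K1H90.CD

open H974 Set Pool.Agent.K1H72.CD

open Classical in
theorem par (C : Set Vtx) (hC : C.Finite) (h0 : ((0 : ℤ), (0 : ℤ)) ∈ C)
    (h1 : ((1 : ℤ), (0 : ℤ)) ∉ C) :
    DReach {g : Edg | g ≠ e1 ∧ ¬ (src g ∈ C ↔ tgt g ∈ C)} (0, -1) (0, 0) := by
  set B : Set Edg := {g : Edg | g ≠ e1 ∧ ¬ (src g ∈ C ↔ tgt g ∈ C)} with hB
  have hBf : B.Finite := by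
    have f1 : ((fun v : Vtx => ((v.1, v.2, true) : Edg)) '' C).Finite := hC.image _
    have f2 : ((fun v : Vtx => ((v.1, v.2, false) : Edg)) '' C).Finite := hC.image _
    have f3 : ((fun v : Vtx => ((v.1 - 1, v.2, true) : Edg)) '' C).Finite := hC.image _
    have f4 : ((fun v : Vtx => ((v.1, v.2 - 1, false) : Edg)) '' C).Finite := hC.image _
    refine (((f1.union f2).union f3).union f4).subset ?_
    rintro ⟨x, y, b⟩ ⟨_, hg⟩
    by_cases hs : src (x, y, b) ∈ C
    · cases b
      · exact Or.inl (Or.inl (Or.inr ⟨(x, y), hs, rfl⟩))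
      · exact Or.inl (Or.inl (Or.inl ⟨(x, y), hs, rfl⟩))
    · have ht : tgt (x, y, b) ∈ C := by
        by_contra ht
        exact hg ⟨fun h => absurd h hs, fun h => absurd h ht⟩
      cases b
      · refine Or.inr ⟨(x, y + 1), ht, ?_⟩
        simp
      · refine Or.inl (Or.inr ⟨(x + 1, y), ht, ?_⟩)
        simp
  by_contra hcon
  set K : Set Vtx := {f | DReach B (0, -1) f} with hK
  have hKf : K.Finite := by
    refine (((finite_singleton ((0 : ℤ), (-1 : ℤ))).union (hBf.image dsrc)).union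
      (hBf.image dtgt)).subset ?_
    intro f hf
    rcases Relation.ReflTransGen.cases_tail hf with h | ⟨c, _, g, hg, h | h⟩
    · exact Or.inl (Or.inl h)
    · exact Or.inr ⟨g, hg, h.2⟩
    · exact Or.inl (Or.inr ⟨g, hg, h.1⟩)
  have hstep : ∀ g ∈ B, (dsrc g ∈ K ↔ dtgt g ∈ K) := by
    intro g hg
    constructor
    · intro h
      exact Relation.ReflTransGen.tail h ⟨g, hg, Or.inl ⟨rfl, rfl⟩⟩
    · intro h
      exact Relation.ReflTransGen.tail h ⟨g, hg, Or.inr ⟨rfl, rfl⟩⟩
  have k0 : ((0 : ℤ), (-1 : ℤ)) ∈ K := Relation.ReflTransGen.refl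
  have k1 : ((0 : ℤ), (0 : ℤ)) ∉ K := hcon
  set c : Vtx → ZMod 2 := fun v => if v ∈ C then 1 else 0 with hc
  set k : Vtx → ZMod 2 := fun v => if v ∈ K then 1 else 0 with hk
  set b : Edg → ZMod 2 := fun g => c (src g) + c (tgt g) + if g = e1 then 1 else 0 with hb
  have htwo : (2 : ZMod 2) = 0 := rfl
  have hbB : ∀ g, b g ≠ 0 → g ∈ B := by
    intro g hg
    have hge : g ≠ e1 := by
      rintro rfl
      apply hg
      have e3 : src e1 = (0, 0) := rfl
      have e4 : tgt e1 = (1, 0) := rfl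
      simp only [hb, hc, e3, e4, if_pos h0, if_neg h1, if_true]
      rfl
    refine ⟨hge, fun hiff => hg ?_⟩
    simp only [hb, hc, if_neg hge]
    by_cases hs : src g ∈ C
    · rw [if_pos hs, if_pos (hiff.1 hs)]; rfl
    · rw [if_neg hs, if_neg (fun h => hs (hiff.2 h))]; rfl
  have hkb : ∀ g, k (dsrc g) * b g = k (dtgt g) * b g := by
    intro g
    by_cases hg : b g = 0
    · rw [hg, mul_zero, mul_zero]
    · have := hstep g (hbB g hg)
      have h2 : k (dsrc g) = k (dtgt g) := by
        simp only [hk]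
        by_cases h3 : dsrc g ∈ K
        · rw [if_pos h3, if_pos (this.1 h3)]
        · rw [if_neg h3, if_neg (fun h => h3 (this.2 h))]
      rw [h2]
  -- the four sums
  have supp : ∀ F : Vtx → ZMod 2, (Function.support fun p => k p * F p).Finite := by
    intro F
    refine hKf.subset fun p hp => ?_
    by_contra h
    apply hp
    simp only [hk, if_neg h, zero_mul]
  have s12 : ∑ᶠ p : Vtx, k p * b (p.1, p.2 + 1, true) = ∑ᶠ p : Vtx, k p * b (p.1, p.2, true) := by
    have e : Vtx ≃ Vtx := Equiv.prodCongr (Equiv.refl ℤ) (Equiv.addRight (1 : ℤ))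
    rw [← finsum_comp_equiv (Equiv.prodCongr (Equiv.refl ℤ) (Equiv.addRight (1 : ℤ)))
      (f := fun p : Vtx => k p * b (p.1, p.2, true))]
    refine finsum_congr fun p => ?_
    have h := hkb (p.1, p.2 + 1, true)
    rw [dsrc_true, dtgt_mk, add_sub_cancel_right] at h
    exact h
  have s34 : ∑ᶠ p : Vtx, k p * b (p.1 + 1, p.2, false) =
      ∑ᶠ p : Vtx, k p * b (p.1, p.2, false) := by
    rw [← finsum_comp_equiv (Equiv.prodCongr (Equiv.addRight (1 : ℤ)) (Equiv.refl ℤ))
      (f := fun p : Vtx => k p * b (p.1, p.2, false))]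
    refine finsum_congr fun p => ?_
    have h := hkb (p.1 + 1, p.2, false)
    have h' : dsrc (p.1 + 1, p.2, false) = (p.1 + 1 - 1, p.2) := rfl
    rw [h', dtgt_mk, add_sub_cancel_right] at h
    exact h
  have tot : ∑ᶠ p : Vtx, k p * (b (p.1, p.2, true) + b (p.1, p.2 + 1, true) +
      b (p.1, p.2, false) + b (p.1 + 1, p.2, false)) = 0 := by
    have e1' : (fun p : Vtx => k p * (b (p.1, p.2, true) + b (p.1, p.2 + 1, true) +
      b (p.1, p.2, false) + b (p.1 + 1, p.2, false))) = fun p => ((k p * b (p.1, p.2, true) +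
        k p * b (p.1, p.2 + 1, true)) + k p * b (p.1, p.2, false)) +
        k p * b (p.1 + 1, p.2, false) := by
      funext p; ring
    rw [e1']
    have a1 := supp fun p => b (p.1, p.2, true)
    have a2 := supp fun p => b (p.1, p.2 + 1, true)
    have a3 := supp fun p => b (p.1, p.2, false)
    have a4 := supp fun p => b (p.1 + 1, p.2, false)
    have a12 : (Function.support fun p : Vtx => k p * b (p.1, p.2, true) +
        k p * b (p.1, p.2 + 1, true)).Finite :=
      (a1.union a2).subset (Function.support_add _ _)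
    have a123 : (Function.support fun p : Vtx => (k p * b (p.1, p.2, true) +
        k p * b (p.1, p.2 + 1, true)) + k p * b (p.1, p.2, false)).Finite :=
      (a12.union a3).subset (Function.support_add _ _)
    rw [finsum_add_distrib a123 a4, finsum_add_distrib a12 a3, finsum_add_distrib a1 a2, s12, s34]
    linear_combination (∑ᶠ p : Vtx, k p * b (p.1, p.2, true) +
      ∑ᶠ p : Vtx, k p * b (p.1, p.2, false)) * htwo
  have loc : ∀ p : Vtx, b (p.1, p.2, true) + b (p.1, p.2 + 1, true) +
      b (p.1, p.2, false) + b (p.1 + 1, p.2, false) =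
      (if p = (0, 0) then 1 else 0) + if p = (0, -1) then 1 else 0 := by
    rintro ⟨x, y⟩
    have q1 : ((x, y, true) : Edg) = e1 ↔ ((x, y) : Vtx) = (0, 0) := by
      simp [e1, Prod.ext_iff]
    have q2 : ((x, y + 1, true) : Edg) = e1 ↔ ((x, y) : Vtx) = (0, -1) := by
      simp only [e1, Prod.mk.injEq, and_true]
      constructor
      · rintro ⟨h1, h2⟩; exact ⟨h1, by omega⟩
      · rintro ⟨h1, h2⟩; exact ⟨h1, by omega⟩
    have q3 : ¬ (((x, y, false) : Edg) = e1) := by simp [e1]
    have q4 : ¬ (((x + 1, y, false) : Edg) = e1) := by simp [e1]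
    simp only [hb, q1, q2, if_neg q3, if_neg q4, src_mk, tgt_true, tgt_false]
    linear_combination (c (x, y) + c (x + 1, y) + c (x, y + 1) + c (x + 1, y + 1)) * htwo
  have tot2 : ∑ᶠ p : Vtx, k p * (b (p.1, p.2, true) + b (p.1, p.2 + 1, true) +
      b (p.1, p.2, false) + b (p.1 + 1, p.2, false)) = 1 := by
    have e2 : (fun p : Vtx => k p * (b (p.1, p.2, true) + b (p.1, p.2 + 1, true) +
      b (p.1, p.2, false) + b (p.1 + 1, p.2, false))) =
        fun p => if p = ((0 : ℤ), (-1 : ℤ)) then (1 : ZMod 2) else 0 := by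
      funext p
      rw [loc p]
      by_cases p0 : p = (0, 0)
      · rw [p0]
        have : k (0, 0) = 0 := by simp only [hk, if_neg k1]
        rw [this, zero_mul, if_neg (by decide)]
      · by_cases p1 : p = (0, -1)
        · rw [p1]
          have : k (0, -1) = 1 := by simp only [hk, if_pos k0]
          rw [this, if_neg (by decide), if_pos rfl]
          ring
        · rw [if_neg p0, if_neg p1]
          ring
    rw [e2, finsum_eq_single _ ((0 : ℤ), (-1 : ℤ)) (fun p hp => if_neg hp), if_pos rfl]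
  rw [tot] at tot2
  exact zero_ne_one tot2

theorem dmono {F G : Set Edg} (hFG : ∀ g ∈ F, g ∈ G) {u v : Vtx} (h : DReach F u v) :
    DReach G u v := by
  unfold DReach at h ⊢
  induction h with
  | refl => exact Relation.ReflTransGen.refl
  | tail _ h2 ih =>
    obtain ⟨g, hg, hg3⟩ := h2
    exact ih.tail ⟨g, hFG g hg, hg3⟩

theorem t_COV : S_COV := by
  intro H C hC h0 h1 hH
  refine dmono ?_ (par C hC h0 h1)
  intro g hg
  exact ⟨hH g hg.1 hg.2, hg.1⟩

end Pool.Agent.K1H90.CD
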